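import Pool.Agent.H34.TAM.Stmts3

/-!
# Board per, row APP: the inverse substitution by iteration
-/

set_option autoImplicit false

noncomputable section

open scoped TensorProduct

namespace Pool.PER

open Pool.CGR Pool.CGS Pool.TAM Pool.AUT MulOpposite

namespace APP55

/-- The iteration. -/
def Gs {m : ℕ} (p : Fin m → Fr m) (ε : ℂ) : ℕ → Fin m → Fr m
  | 0 => io
  | n + 1 => fun j => io j - ε • FreeAlgebra.lift ℂ (Gs p ε n) (p j)

theorem lift_io {m : ℕ} (q : Fr m) : FreeAlgebra.lift ℂ (io : Fin m → Fr m) q = q := by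
  have h : FreeAlgebra.lift ℂ (io : Fin m → Fr m) = AlgHom.id ℂ (Fr m) := by
    apply FreeAlgebra.hom_ext
    funext j
    simp [io]
  rw [h]
  rfl

theorem lift_lift {m : ℕ} (F G : Fin m → Fr m) (q : Fr m) :
    FreeAlgebra.lift ℂ F (FreeAlgebra.lift ℂ G q) =
      FreeAlgebra.lift ℂ (fun j => FreeAlgebra.lift ℂ F (G j)) q := by
  have h : (FreeAlgebra.lift ℂ F).comp (FreeAlgebra.lift ℂ G) =
      FreeAlgebra.lift ℂ (fun j => FreeAlgebra.lift ℂ F (G j)) := by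
    apply FreeAlgebra.hom_ext
    funext j
    simp
  rw [← h]
  rfl

end APP55

open APP55 in
theorem app_thm (h1 : MUXStmt) (h2 : MUMStmt) (h3 : MUSStmt) (h4 : MUDStmt) : APPStmt := by
  intro m r ν D hr hν hD p
  have hr0 : (0 : ℝ) ≤ 4 * r := by linarith
  obtain ⟨μ, hμ⟩ := h1 m (4 * r) hr0
  obtain ⟨-, -, hio, -⟩ := h2 m (4 * r) μ hr0 hμ
  have hS := h3 m (4 * r) μ hr0 hμ (8 * r) (by linarith)
  choose B K hB hK hBK using fun j => hS (p j)
  have hBt : ∀ j, B j ≤ ∑ i, B i := fun j =>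
    Finset.single_le_sum (fun i _ => hB i) (Finset.mem_univ j)
  have hKt : ∀ j, K j ≤ ∑ i, K i := fun j =>
    Finset.single_le_sum (fun i _ => hK i) (Finset.mem_univ j)
  obtain ⟨Bt, hBt'⟩ : ∃ Bt, Bt = ∑ i, B i := ⟨_, rfl⟩
  obtain ⟨Kt, hKt'⟩ : ∃ Kt, Kt = ∑ i, K i := ⟨_, rfl⟩
  rw [← hBt'] at hBt
  rw [← hKt'] at hKt
  have hBt0 : 0 ≤ Bt := by rw [hBt']; exact Finset.sum_nonneg fun i _ => hB i
  have hKt0 : 0 ≤ Kt := by rw [hKt']; exact Finset.sum_nonneg fun i _ => hK i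
  refine ⟨1 / (2 * (Kt + 1) + (Bt + 1)), by positivity, ?_⟩
  intro ε hε h η hη
  have hden : 0 < 2 * (Kt + 1) + (Bt + 1) := by positivity
  have hε1 : ‖ε‖ * (2 * (Kt + 1) + (Bt + 1)) ≤ 1 := by
    rwa [le_div_iff₀ hden] at hε
  have hε0 : 0 ≤ ‖ε‖ := norm_nonneg ε
  have hεK : ‖ε‖ * Kt ≤ 1 / 2 := by nlinarith
  have hεB : ‖ε‖ * Bt ≤ 1 := by nlinarith
  obtain ⟨e0, he0⟩ : ∃ e0, e0 = ‖ε‖ * Bt := ⟨_, rfl⟩
  have he00 : 0 ≤ e0 := by rw [he0]; positivity
  have he1 : e0 ≤ 1 := by rw [he0]; exact hεB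
  have hios : ∀ j : Fin m, μ (io j) ≤ 8 * r := fun j => (hio j).trans (by linarith)
  obtain ⟨g, hg⟩ : ∃ g : ℕ → Fin m → Fr m,
      g = fun n j => FreeAlgebra.lift ℂ (su p ε) (Gs p ε n j) := ⟨_, rfl⟩
  have hg0 : ∀ j, g 0 j - io j = ε • p j := by
    intro j
    rw [hg]
    show FreeAlgebra.lift ℂ (su p ε) (io j) - io j = ε • p j
    rw [FreeAlgebra.lift_ι_apply]
    simp [su]
  have hgs : ∀ n j, g (n + 1) j - io j = (-ε) • (FreeAlgebra.lift ℂ (g n) (p j) - p j) := by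
    intro n j
    have e1 : g (n + 1) j = su p ε j - ε • FreeAlgebra.lift ℂ (g n) (p j) := by
      rw [hg]
      show FreeAlgebra.lift ℂ (su p ε) (io j - ε • FreeAlgebra.lift ℂ (Gs p ε n) (p j)) = _
      rw [map_sub, map_smul, lift_lift, FreeAlgebra.lift_ι_apply]
    rw [e1, su, neg_smul, smul_sub]
    abel
  -- the values are bounded
  have hbd : ∀ n, (∀ j, μ (g n j - io j) ≤ (1 / 2) ^ n * e0) → ∀ j, μ (g n j) ≤ 8 * r := by
    intro n hn j
    have e1 : g n j = io j + (g n j - io j) := by abel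
    rw [e1]
    refine (hμ.add _ _).trans ?_
    have e2 : (1 / 2 : ℝ) ^ n * e0 ≤ 1 * e0 :=
      mul_le_mul_of_nonneg_right (pow_le_one₀ (by norm_num) (by norm_num)) he00
    have := hio j
    have := hn j
    linarith
  have hmain : ∀ n j, μ (g n j - io j) ≤ (1 / 2) ^ n * e0 := by
    intro n
    induction n with
    | zero =>
      intro j
      rw [hg0, pow_zero, one_mul]
      refine (hμ.smul _ _).trans ?_
      rw [he0]
      refine mul_le_mul_of_nonneg_left ?_ hε0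
      have := (hBK j io io hios hios).1
      rw [lift_io] at this
      exact this.trans (hBt j)
    | succ n ih =>
      intro j
      rw [hgs]
      refine (hμ.smul _ _).trans ?_
      rw [norm_neg]
      have e1 := (hBK j (g n) io (hbd n ih) hios).2 ((1 / 2) ^ n * e0) (by positivity) ih
      rw [lift_io] at e1
      have e2 : 0 ≤ (1 / 2 : ℝ) ^ n * e0 := by positivity
      have e3 : K j * ((1 / 2) ^ n * e0) ≤ Kt * ((1 / 2) ^ n * e0) :=
        mul_le_mul_of_nonneg_right (hKt j) e2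
      calc ‖ε‖ * μ (FreeAlgebra.lift ℂ (g n) (p j) - p j) ≤ ‖ε‖ * (Kt * ((1 / 2) ^ n * e0)) :=
            mul_le_mul_of_nonneg_left (e1.trans e3) hε0
        _ = (‖ε‖ * Kt) * ((1 / 2) ^ n * e0) := by ring
        _ ≤ 1 / 2 * ((1 / 2) ^ n * e0) := mul_le_mul_of_nonneg_right hεK e2
        _ = (1 / 2) ^ (n + 1) * e0 := by ring
  -- the choice of `n`
  obtain ⟨Bh, Kh, hBh, hKh, hh⟩ := hS h
  obtain ⟨n, hn⟩ := exists_pow_lt_of_lt_one (show 0 < η / (Kh * e0 + 1) by positivity)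
    (show (1 / 2 : ℝ) < 1 by norm_num)
  refine ⟨FreeAlgebra.lift ℂ (Gs p ε n) h, ?_⟩
  intro k
  refine (h4 m r μ ν D hr hμ hν hD k _).trans ?_
  rw [lift_lift]
  have e1 := (hh (g n) io (hbd n (hmain n)) hios).2 ((1 / 2) ^ n * e0) (by positivity) (hmain n)
  rw [lift_io] at e1
  have e2 : h - FreeAlgebra.lift ℂ (fun j => FreeAlgebra.lift ℂ (su p ε) (Gs p ε n j)) h =
      (-1 : ℂ) • (FreeAlgebra.lift ℂ (g n) h - h) := by
    rw [hg, neg_one_smul]
    abel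
  rw [e2]
  refine (hμ.smul _ _).trans ?_
  rw [norm_neg, norm_one, one_mul]
  refine e1.trans ?_
  have e3 : (1 / 2 : ℝ) ^ n * (Kh * e0 + 1) ≤ η := by
    rw [← le_div_iff₀ (by positivity)]
    exact hn.le
  have e4 : (0 : ℝ) ≤ (1 / 2) ^ n := by positivity
  nlinarith

end Pool.PER
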